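import Mathlib

/-!
# Coverings of manifolds by finitely many discrete families of small cubes
-/

namespace Pool.Agent.H83

open Set Topology Filter Metric

variable {M : Type*} [TopologicalSpace M]

/-- The lattice point `r • m` of `Fin n → ℝ`. -/
def latt {n : ℕ} (r : ℝ) (m : Fin n → ℤ) : Fin n → ℝ := fun k => r * m k

lemma mult_bound {n : ℕ} {r : ℝ} (hr : 0 < r) (x : Fin n → ℝ) :
    ∃ F : Finset (Fin n → ℤ), F.card ≤ 2 ^ n ∧ ∀ m, x ∈ ball (latt r m) r → m ∈ F := by
  classical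
  refine ⟨Fintype.piFinset fun k => {⌊x k / r⌋, ⌊x k / r⌋ + 1}, ?_, ?_⟩
  · rw [Fintype.card_piFinset]
    calc ∏ k, ({⌊x k / r⌋, ⌊x k / r⌋ + 1} : Finset ℤ).card ≤ ∏ _k : Fin n, 2 :=
          Finset.prod_le_prod' fun k _ => Finset.card_le_two
      _ = 2 ^ n := by simp
  · intro m hm
    rw [Fintype.mem_piFinset]
    intro k
    rw [mem_ball, dist_pi_lt_iff hr] at hm
    have h1 := hm k
    rw [Real.dist_eq, latt, abs_lt] at h1
    have h2 : x k / r < m k + 1 := by
      rw [div_lt_iff₀ hr]; nlinarith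
    have h3 : (m k : ℝ) - 1 < x k / r := by
      rw [lt_div_iff₀ hr]; nlinarith
    have h4 : ⌊x k / r⌋ < m k + 1 := by
      rw [Int.floor_lt]; push_cast; exact h2
    have h5 : m k - 1 ≤ ⌊x k / r⌋ := by
      rw [Int.le_floor]; push_cast; exact h3.le
    simp only [Finset.mem_insert, Finset.mem_singleton]
    omega

lemma exists_latt {n : ℕ} {r : ℝ} (hr : 0 < r) (x : Fin n → ℝ) :
    ∃ m : Fin n → ℤ, x ∈ closedBall (latt r m) (r / 2) := by
  refine ⟨fun k => round (x k / r), ?_⟩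
  rw [mem_closedBall, dist_pi_le_iff (by positivity)]
  intro k
  rw [Real.dist_eq, latt]
  have h := abs_sub_round (x k / r)
  have : x k - r * (round (x k / r) : ℝ) = r * (x k / r - round (x k / r)) := by
    field_simp
  rw [this, abs_mul, abs_of_pos hr]
  nlinarith

/-- In a single chart, covers can be shrunk so as to have order at most `2 ^ n`. -/
lemma single_chart_shrink {n : ℕ} (φ : OpenPartialHomeomorph M (Fin n → ℝ)) {A : Set M}
    (hA : IsCompact A) (hAφ : A ⊆ φ.source) {S : Type*} (U : S → Set M) (hU : ∀ s, IsOpen (U s))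
    (hAU : A ⊆ ⋃ s, U s) :
    ∃ V : S → Set M, (∀ s, IsOpen (V s)) ∧ (∀ s, V s ⊆ U s) ∧ A ⊆ ⋃ s, V s ∧
      ∀ x, ∃ F : Finset S, F.card ≤ 2 ^ n ∧ ∀ s, x ∈ V s → s ∈ F := by
  classical
  rcases isEmpty_or_nonempty S with hS | hS
  · refine ⟨U, hU, fun s => subset_rfl, hAU, fun x => ⟨∅, by simp, fun s => (hS.false s).elim⟩⟩
  have hK : IsCompact (φ '' A) := hA.image_of_continuousOn (φ.continuousOn.mono hAφ)
  have hc : ∀ s, IsOpen (φ '' (φ.source ∩ U s)) := fun s =>
    φ.isOpen_image_of_subset_source (φ.open_source.inter (hU s)) inter_subset_left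
  have hKc : φ '' A ⊆ ⋃ s, φ '' (φ.source ∩ U s) := by
    rintro _ ⟨x, hx, rfl⟩
    obtain ⟨s, hs⟩ := mem_iUnion.mp (hAU hx)
    exact mem_iUnion.mpr ⟨s, x, ⟨hAφ hx, hs⟩, rfl⟩
  obtain ⟨δ, hδ, hleb⟩ := lebesgue_number_lemma_of_metric hK hc hKc
  set r : ℝ := δ / 2 with hr
  have hr0 : 0 < r := by positivity
  have hex : ∀ m : Fin n → ℤ, (ball (latt r m) r ∩ φ '' A).Nonempty →
      ∃ s, ball (latt r m) r ⊆ φ '' (φ.source ∩ U s) := by
    rintro m ⟨x, hxm, hxA⟩
    obtain ⟨s, hs⟩ := hleb x hxA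
    refine ⟨s, Subset.trans ?_ hs⟩
    intro y hy
    rw [mem_ball] at hy hxm ⊢
    calc dist y x ≤ dist y (latt r m) + dist x (latt r m) := dist_triangle_right _ _ _
      _ < r + r := add_lt_add hy hxm
      _ = δ := by rw [hr]; ring
  choose! σ hσ using hex
  let V : S → Set M := fun s => φ.source ∩ φ ⁻¹'
    (⋃ m ∈ {m : Fin n → ℤ | (ball (latt r m) r ∩ φ '' A).Nonempty ∧ σ m = s}, ball (latt r m) r)
  refine ⟨V, ?_, ?_, ?_, ?_⟩
  · intro s
    exact φ.isOpen_inter_preimage (isOpen_biUnion fun m _ => isOpen_ball)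
  · rintro s x ⟨hx, hxm⟩
    rw [mem_preimage, mem_iUnion₂] at hxm
    obtain ⟨m, ⟨hm, rfl⟩, hxm⟩ := hxm
    obtain ⟨y, ⟨hy1, hy2⟩, hy⟩ := hσ m hm hxm
    rwa [φ.injOn hy1 hx hy] at hy2
  · intro x hx
    obtain ⟨m, hm⟩ := exists_latt hr0 (φ x)
    have hm' : φ x ∈ ball (latt r m) r := closedBall_subset_ball (by linarith) hm
    have hne : (ball (latt r m) r ∩ φ '' A).Nonempty := ⟨φ x, hm', x, hx, rfl⟩
    refine mem_iUnion.mpr ⟨σ m, hAφ hx, ?_⟩
    rw [mem_preimage, mem_iUnion₂]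
    exact ⟨m, ⟨hne, rfl⟩, hm'⟩
  · intro x
    obtain ⟨F, hF, hFm⟩ := mult_bound hr0 (φ x)
    refine ⟨F.image σ, Finset.card_image_le.trans hF, ?_⟩
    rintro s ⟨hx, hxm⟩
    rw [mem_preimage, mem_iUnion₂] at hxm
    obtain ⟨m, ⟨hm, rfl⟩, hxm⟩ := hxm
    exact Finset.mem_image_of_mem σ (hFm m hxm)

/-- The countable sum theorem, in the form we need. -/
theorem exists_order_shrink {S : Type*} {N : ℕ}
    (A : ℕ → Set M) (hA : ∀ k, IsClosed (A k)) (hAfin : LocallyFinite A)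
    (hAcov : ⋃ k, A k = univ)
    (hstep : ∀ k (U : S → Set M), (∀ s, IsOpen (U s)) → ⋃ s, U s = univ →
      ∃ V : S → Set M, (∀ s, IsOpen (V s)) ∧ (∀ s, V s ⊆ U s) ∧ A k ⊆ ⋃ s, V s ∧
        ∀ x, ∃ F : Finset S, F.card ≤ N ∧ ∀ s, x ∈ V s → s ∈ F)
    (U : S → Set M) (hU : ∀ s, IsOpen (U s)) (hUc : ⋃ s, U s = univ) :
    ∃ W : S → Set M, (∀ s, IsOpen (W s)) ∧ (∀ s, W s ⊆ U s) ∧ ⋃ s, W s = univ ∧
      ∀ x, ∃ F : Finset S, F.card ≤ N ∧ ∀ s, x ∈ W s → s ∈ F := by
  classical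
  let State := {W : S → Set M // (∀ s, IsOpen (W s)) ∧ ⋃ s, W s = univ}
  have hstep' : ∀ (k : ℕ) (W : State), ∃ W' : State, (∀ s, W'.1 s ⊆ W.1 s) ∧
      (∀ s, W.1 s \ A k ⊆ W'.1 s) ∧
      ∀ x ∈ A k, ∃ F : Finset S, F.card ≤ N ∧ ∀ s, x ∈ W'.1 s → s ∈ F := by
    rintro k ⟨W, hWo, hWc⟩
    obtain ⟨V, hVo, hVW, hVc, hVN⟩ := hstep k W hWo hWc
    refine ⟨⟨fun s => W s \ (A k \ V s), ?_, ?_⟩, ?_, ?_, ?_⟩
    · intro s
      exact (hWo s).sdiff ((hA k).sdiff (hVo s))
    · refine eq_univ_of_forall fun x => ?_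
      by_cases hx : x ∈ A k
      · obtain ⟨s, hs⟩ := mem_iUnion.mp (hVc hx)
        exact mem_iUnion.mpr ⟨s, hVW s hs, fun h => h.2 hs⟩
      · obtain ⟨s, hs⟩ := mem_iUnion.mp ((hWc ▸ mem_univ x : x ∈ ⋃ s, W s))
        exact mem_iUnion.mpr ⟨s, hs, fun h => hx h.1⟩
    · intro s
      exact sdiff_subset
    · rintro s x ⟨hx1, hx2⟩
      exact ⟨hx1, fun h => hx2 h.1⟩
    · intro x hx
      obtain ⟨F, hF, hFs⟩ := hVN x
      refine ⟨F, hF, ?_⟩
      rintro s ⟨hs1, hs2⟩
      apply hFs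
      by_contra h
      exact hs2 ⟨hx, h⟩
  choose step hstep1 hstep2 hstep3 using hstep'
  let seq : ℕ → State := fun k => Nat.rec ⟨U, hU, hUc⟩ (fun k W => step k W) k
  have hseq : ∀ k, seq (k + 1) = step k (seq k) := fun k => rfl
  have hanti : ∀ k s, (seq (k + 1)).1 s ⊆ (seq k).1 s := by
    intro k s
    rw [hseq]
    exact hstep1 k (seq k) s
  have hanti' : ∀ k l, k ≤ l → ∀ s, (seq l).1 s ⊆ (seq k).1 s := by
    intro k l hkl s
    induction l, hkl using Nat.le_induction with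
    | base => exact subset_rfl
    | succ l _ ih => exact (hanti l s).trans ih
  let W : S → Set M := fun s => ⋂ k, (seq k).1 s
  -- local stabilisation
  have hloc : ∀ x : M, ∃ G ∈ 𝓝 x, ∃ k₀ : ℕ, ∀ s, ∀ y ∈ G, y ∈ (seq k₀).1 s → y ∈ W s := by
    intro x
    obtain ⟨G, hG, hGfin⟩ := hAfin x
    obtain ⟨k₀, hk₀⟩ : ∃ k₀ : ℕ, ∀ k ∈ {k | (A k ∩ G).Nonempty}, k < k₀ := by
      obtain ⟨b, hb⟩ := hGfin.bddAbove
      exact ⟨b + 1, fun k hk => Nat.lt_succ_of_le (hb hk)⟩
    refine ⟨G, hG, k₀, fun s y hyG hy => mem_iInter.mpr fun k => ?_⟩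
    rcases le_total k k₀ with h | h
    · exact hanti' k k₀ h s hy
    · induction k, h using Nat.le_induction with
      | base => exact hy
      | succ k hk ih =>
        rw [hseq]
        apply hstep2 k (seq k) s
        refine ⟨ih, fun hyA => ?_⟩
        have := hk₀ k ⟨y, hyA, hyG⟩
        omega
  refine ⟨W, ?_, ?_, ?_, ?_⟩
  · intro s
    rw [isOpen_iff_mem_nhds]
    intro x hx
    obtain ⟨G, hG, k₀, hk₀⟩ := hloc x
    have hx' : x ∈ (seq k₀).1 s := mem_iInter.mp hx k₀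
    filter_upwards [hG, ((seq k₀).2.1 s).mem_nhds hx'] with y hyG hy
    exact hk₀ s y hyG hy
  · intro s x hx
    exact mem_iInter.mp hx 0
  · refine eq_univ_of_forall fun x => ?_
    obtain ⟨G, hG, k₀, hk₀⟩ := hloc x
    have hx : x ∈ ⋃ s, (seq k₀).1 s := by rw [(seq k₀).2.2]; trivial
    obtain ⟨s, hs⟩ := mem_iUnion.mp hx
    exact mem_iUnion.mpr ⟨s, hk₀ s x (mem_of_mem_nhds hG) hs⟩
  · intro x
    obtain ⟨k, hk⟩ := mem_iUnion.mp ((hAcov ▸ mem_univ x : x ∈ ⋃ k, A k))
    obtain ⟨F, hF, hFs⟩ := hstep3 k (seq k) x hk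
    refine ⟨F, hF, fun s hs => hFs s ?_⟩
    have := mem_iInter.mp hs (k + 1)
    rwa [hseq] at this

/-- Gap lemma: among at most `N` nonzero numbers with sum `1` there is a gap of size `1 / N ^ 2`. -/
lemma exists_gap {S : Type*} {N : ℕ} (a : S → ℝ) (F : Finset S) (hF : F.card ≤ N)
    (ha : ∀ s, a s ≠ 0 → s ∈ F) (hsum : ∑ s ∈ F, a s = 1) :
    ∃ T : Finset S, T.Nonempty ∧ T.card ≤ N ∧ (∀ s ∈ T, 1 / (N : ℝ) ^ 2 ≤ a s) ∧
      ∀ s ∈ T, ∀ t ∉ T, a t + 1 / (N : ℝ) ^ 2 ≤ a s := by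
  classical
  have hFne : F.Nonempty := by
    by_contra h
    rw [Finset.not_nonempty_iff_eq_empty] at h
    rw [h] at hsum
    simp at hsum
  have hN : 0 < N := (Finset.card_pos.mpr hFne).trans_le hF
  have hN' : (0 : ℝ) < N := by exact_mod_cast hN
  set c : ℝ := 1 / (N : ℝ) ^ 2 with hc
  have hc0 : 0 < c := by positivity
  have hNc : (N : ℝ) * c = 1 / N := by rw [hc]; field_simp
  -- some value is at least `1 / N`
  obtain ⟨s₀, hs₀F, hs₀⟩ : ∃ s ∈ F, 1 / (N : ℝ) ≤ a s := by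
    by_contra hcon
    push Not at hcon
    have h1 : ∑ s ∈ F, a s < ∑ _s ∈ F, 1 / (N : ℝ) := Finset.sum_lt_sum_of_nonempty hFne hcon
    rw [hsum, Finset.sum_const, nsmul_eq_mul] at h1
    have h2 : (F.card : ℝ) * (1 / (N : ℝ)) ≤ 1 := by
      rw [mul_one_div, div_le_one hN']
      exact_mod_cast hF
    linarith
  -- some interval contains no value
  obtain ⟨k, hkN, hk⟩ : ∃ k < N, ∀ s ∈ F, ¬ ((k : ℝ) * c ≤ a s ∧ a s < (k + 1 : ℝ) * c) := by
    by_contra hcon
    push Not at hcon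
    have : Nonempty S := ⟨s₀⟩
    choose! τ hτF hτ1 hτ2 using hcon
    have hinj : Set.InjOn τ (Finset.range N : Set ℕ) := by
      intro k hk l hl hkl
      simp only [Finset.coe_range, mem_Iio] at hk hl
      have h1 := hτ1 k hk
      have h2 := hτ2 k hk
      have h3 := hτ1 l hl
      have h4 := hτ2 l hl
      rw [hkl] at h1 h2
      have h5 : (k : ℝ) < l + 1 := by
        by_contra h
        rw [not_lt] at h
        nlinarith
      have h6 : (l : ℝ) < k + 1 := by
        by_contra h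
        rw [not_lt] at h
        nlinarith
      have h5' : k < l + 1 := by exact_mod_cast h5
      have h6' : l < k + 1 := by exact_mod_cast h6
      omega
    have hsub : (Finset.range N).image τ ⊆ F.erase s₀ := by
      intro s hs
      rw [Finset.mem_image] at hs
      obtain ⟨k, hk, rfl⟩ := hs
      rw [Finset.mem_range] at hk
      rw [Finset.mem_erase]
      refine ⟨?_, hτF k hk⟩
      intro h
      have h2 := hτ2 k hk
      rw [h] at h2
      have h3 : ((k : ℝ) + 1) ≤ N := by exact_mod_cast hk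
      have h4 : ((k : ℝ) + 1) * c ≤ N * c := mul_le_mul_of_nonneg_right h3 hc0.le
      rw [hNc] at h4
      linarith
    have h1 := Finset.card_le_card hsub
    rw [Finset.card_image_of_injOn hinj, Finset.card_range, Finset.card_erase_of_mem hs₀F] at h1
    have := Finset.card_pos.mpr hFne
    omega
  have hk0 : (0 : ℝ) ≤ k := by positivity
  refine ⟨F.filter fun s => ((k : ℝ) + 1) * c ≤ a s, ⟨s₀, ?_⟩,
    (Finset.card_filter_le _ _).trans hF, ?_, ?_⟩
  · rw [Finset.mem_filter]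
    refine ⟨hs₀F, ?_⟩
    have h3 : ((k : ℝ) + 1) ≤ N := by exact_mod_cast hkN
    have h4 : ((k : ℝ) + 1) * c ≤ N * c := mul_le_mul_of_nonneg_right h3 hc0.le
    rw [hNc] at h4
    linarith
  · intro s hs
    rw [Finset.mem_filter] at hs
    nlinarith [hs.2]
  · intro s hs t ht
    rw [Finset.mem_filter] at hs ht
    have hat : a t ≤ k * c := by
      by_cases htF : t ∈ F
      · have h1 : a t < ((k : ℝ) + 1) * c := by
          by_contra h
          exact ht ⟨htF, not_lt.mp h⟩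
        by_contra h
        exact hk t htF ⟨(not_le.mp h).le, h1⟩
      · have : a t = 0 := by
          by_contra h
          exact htF (ha t h)
        rw [this]
        positivity
    nlinarith [hs.2]

/-- From a locally finite open cover of order at most `N` to discrete families. The sets `C T`
(`T` a nonempty finite set of indices, of cardinality at most `N`) cover the space; for `T`, `T'`
of the same cardinality the closures of `V T`, `V T'` are disjoint. -/
theorem exists_discrete_families [NormalSpace M] {S : Type*} {N : ℕ} (hN : 0 < N) (W : S → Set M)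
    (hW : ∀ s, IsOpen (W s)) (hWc : ⋃ s, W s = univ) (hfin : LocallyFinite W)
    (hord : ∀ x, ∃ F : Finset S, F.card ≤ N ∧ ∀ s, x ∈ W s → s ∈ F) :
    ∃ V C : {T : Finset S // T.Nonempty} → Set M,
      (∀ T, IsOpen (V T)) ∧ (∀ T, IsClosed (C T)) ∧ (∀ T, C T ⊆ V T) ∧
      (∀ T, ∀ s ∈ T.1, closure (V T) ⊆ W s) ∧ LocallyFinite V ∧
      (∀ T T', T ≠ T' → T.1.card = T'.1.card → Disjoint (closure (V T)) (closure (V T'))) ∧
      ∀ x, ∃ T, T.1.card ≤ N ∧ x ∈ C T := by
  classical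
  obtain ⟨f, hf⟩ := PartitionOfUnity.exists_isSubordinate_of_locallyFinite isClosed_univ W hW hfin
    hWc.ge
  set c : ℝ := 1 / (N : ℝ) ^ 2 with hc
  have hN' : (0 : ℝ) < N := by exact_mod_cast hN
  have hc0 : 0 < c := by positivity
  let D : ℝ → {T : Finset S // T.Nonempty} → Set M := fun b T =>
    {x | (∀ s ∈ T.1, b ≤ f s x) ∧ ∀ s ∈ T.1, ∀ t ∉ T.1, f t x + b ≤ f s x}
  have hDclosed : ∀ b T, IsClosed (D b T) := by
    intro b T
    have : D b T = (⋂ s ∈ T.1, {x | b ≤ f s x}) ∩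
        ⋂ s ∈ T.1, ⋂ t : S, ⋂ (_ : t ∉ T.1), {x | f t x + b ≤ f s x} := by
      ext x
      simp only [D, mem_ofPred_eq, mem_inter_iff, mem_iInter]
    rw [this]
    refine IsClosed.inter ?_ ?_
    · exact isClosed_biInter fun s _ => isClosed_le continuous_const (f s).continuous
    · exact isClosed_biInter fun s _ => isClosed_iInter fun t => isClosed_iInter fun _ =>
        isClosed_le ((f t).continuous.add continuous_const) (f s).continuous
  have hDsub : ∀ b T, 0 < b → ∀ s ∈ T.1, D b T ⊆ W s := by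
    intro b T hb s hs x hx
    apply hf s
    apply subset_closure
    have := hx.1 s hs
    rw [Function.mem_support]
    linarith
  have hint : ∀ T, D c T ⊆ interior (D (c / 2) T) := by
    intro T x hx
    rw [mem_interior_iff_mem_nhds]
    obtain ⟨G, hG, hGfin⟩ := hfin x
    have h1 : ∀ s ∈ T.1, ∀ᶠ y in 𝓝 x, c / 2 < f s y := by
      intro s hs
      have : c / 2 < f s x := by linarith [hx.1 s hs]
      exact (f s).continuous.continuousAt.eventually (lt_mem_nhds this)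
    have h1' : ∀ᶠ y in 𝓝 x, ∀ s ∈ T.1, c / 2 < f s y :=
      (Filter.eventually_all_finset T.1).mpr h1
    have h2 : ∀ s ∈ T.1, ∀ t ∈ hGfin.toFinset, ∀ᶠ y in 𝓝 x, t ∉ T.1 → f t y + c / 2 < f s y := by
      intro s hs t _
      by_cases ht : t ∈ T.1
      · exact Filter.Eventually.of_forall fun y h => absurd ht h
      · have h3 : f t x + c / 2 < f s x := by linarith [hx.2 s hs t ht]
        have h4 : ContinuousAt (fun y => f s y - (f t y + c / 2)) x := by fun_prop
        have h5 : ∀ᶠ y in 𝓝 x, 0 < f s y - (f t y + c / 2) :=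
          h4.eventually (lt_mem_nhds (by linarith))
        filter_upwards [h5] with y hy _
        linarith
    have h2' : ∀ᶠ y in 𝓝 x, ∀ s ∈ T.1, ∀ t ∈ hGfin.toFinset, t ∉ T.1 →
        f t y + c / 2 < f s y :=
      (Filter.eventually_all_finset T.1).mpr fun s hs =>
        (Filter.eventually_all_finset _).mpr fun t ht => h2 s hs t ht
    filter_upwards [h1', h2', hG] with y hy1 hy2 hyG
    refine ⟨fun s hs => (hy1 s hs).le, fun s hs t ht => ?_⟩
    by_cases htF : t ∈ hGfin.toFinset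
    · exact (hy2 s hs t htF ht).le
    · have : f t y = 0 := by
        by_contra h
        apply htF
        rw [Set.Finite.mem_toFinset]
        exact ⟨y, hf t (subset_closure h), hyG⟩
      rw [this, zero_add]
      exact (hy1 s hs).le
  have hcl : ∀ T, closure (interior (D (c / 2) T)) ⊆ D (c / 2) T := fun T =>
    closure_minimal interior_subset (hDclosed _ T)
  refine ⟨fun T => interior (D (c / 2) T), D c, fun T => isOpen_interior, hDclosed c, hint, ?_,
    ?_, ?_, ?_⟩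
  · intro T s hs
    exact (hcl T).trans (hDsub _ T (by positivity) s hs)
  · intro x
    obtain ⟨G, hG, hGfin⟩ := hfin x
    refine ⟨G, hG, ?_⟩
    have : {T : {T : Finset S // T.Nonempty} | (interior (D (c / 2) T) ∩ G).Nonempty} ⊆
        Subtype.val ⁻¹' (hGfin.toFinset.powerset : Set (Finset S)) := by
      rintro T ⟨y, hyT, hyG⟩
      simp only [mem_preimage, Finset.coe_powerset, Set.mem_powerset_iff]
      intro s hs
      simp only [Set.Finite.coe_toFinset, mem_ofPred_eq]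
      exact ⟨y, hDsub _ T (by positivity) s hs (interior_subset hyT), hyG⟩
    exact ((Finset.finite_toSet _).preimage Subtype.val_injective.injOn).subset this
  · intro T T' hne hcard
    refine Disjoint.mono (hcl T) (hcl T') ?_
    rw [Set.disjoint_left]
    intro x hx hx'
    have hne' : T.1 ≠ T'.1 := fun h => hne (Subtype.ext h)
    obtain ⟨s, hs, hs'⟩ : ∃ s ∈ T.1, s ∉ T'.1 := by
      by_contra hcon
      push Not at hcon
      exact hne' (Finset.eq_of_subset_of_card_le hcon hcard.ge)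
    obtain ⟨t, ht, ht'⟩ : ∃ t ∈ T'.1, t ∉ T.1 := by
      by_contra hcon
      push Not at hcon
      exact hne' (Finset.eq_of_subset_of_card_le hcon hcard.le).symm
    have h1 := hx.2 s hs t ht'
    have h2 := hx'.2 t ht s hs'
    linarith
  · intro x
    obtain ⟨F, hF, hFs⟩ := hord x
    have hsupp : ∀ s, f s x ≠ 0 → s ∈ F := fun s hs => hFs s (hf s (subset_closure hs))
    have hsum : ∑ s ∈ F, f s x = 1 := by
      have h1 := f.sum_eq_one (mem_univ x)
      rwa [finsum_eq_sum_of_support_subset _ (fun s hs => hsupp s hs)] at h1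
    obtain ⟨T, hTne, hTcard, h1, h2⟩ := exists_gap (fun s => f s x) F hF hsupp hsum
    exact ⟨⟨T, hTne⟩, hTcard, h1, h2⟩

end Pool.Agent.H83
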