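import Mathlib

/-!
# Stone-Čech remainders: general topology
-/

namespace Pool.Agent.H83

open Set Topology Filter

variable {X : Type*} [TopologicalSpace X]

/-- The Stone-Čech remainder, as a subset of the Stone-Čech compactification. -/
abbrev remainder (X : Type*) [TopologicalSpace X] : Set (StoneCech X) :=
  (range (stoneCechUnit : X → StoneCech X))ᶜ

/-- The extension to `StoneCech X` of the inclusion `X → OnePoint X`. -/
noncomputable def toOnePoint [T2Space X] [LocallyCompactSpace X] : StoneCech X → OnePoint X :=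
  stoneCechExtend (OnePoint.continuous_coe : Continuous ((↑) : X → OnePoint X))

section LC

variable [T2Space X] [LocallyCompactSpace X]

lemma continuous_toOnePoint : Continuous (toOnePoint (X := X)) :=
  continuous_stoneCechExtend _

lemma toOnePoint_unit (x : X) : toOnePoint (stoneCechUnit x) = (x : OnePoint X) :=
  stoneCechExtend_stoneCechUnit _ x

lemma mem_range_of_toOnePoint_eq {z : StoneCech X} {x : X} (h : toOnePoint z = (x : OnePoint X)) :
    z ∈ range (stoneCechUnit : X → StoneCech X) := by
  obtain ⟨K, hK, hxK⟩ := exists_compact_mem_nhds x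
  have hopen : IsOpen (toOnePoint (X := X) ⁻¹' ((↑) '' interior K : Set (OnePoint X))) :=
    (OnePoint.isOpenEmbedding_coe.isOpenMap _ isOpen_interior).preimage continuous_toOnePoint
  have hz : z ∈ toOnePoint (X := X) ⁻¹' ((↑) '' interior K : Set (OnePoint X)) := by
    refine ⟨x, mem_interior_iff_mem_nhds.mpr hxK, h.symm⟩
  have hcl : IsClosed (stoneCechUnit '' K : Set (StoneCech X)) :=
    (hK.image continuous_stoneCechUnit).isClosed
  have : z ∈ closure (stoneCechUnit '' K : Set (StoneCech X)) := by
    rw [mem_closure_iff]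
    intro U hU hzU
    obtain ⟨w, hw⟩ := denseRange_stoneCechUnit.exists_mem_open (hU.inter hopen) ⟨z, hzU, hz⟩
    refine ⟨stoneCechUnit w, hw.1, ⟨w, ?_, rfl⟩⟩
    obtain ⟨v, hv, hvw⟩ := hw.2
    rw [toOnePoint_unit] at hvw
    have : v = w := OnePoint.coe_injective hvw
    exact this ▸ interior_subset hv
  rw [hcl.closure_eq] at this
  exact image_subset_range _ _ this

lemma toOnePoint_eq_infty {z : StoneCech X} (h : z ∈ remainder X) :
    toOnePoint z = OnePoint.infty := by
  by_contra hne
  obtain ⟨x, hx⟩ := OnePoint.ne_infty_iff_exists.mp hne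
  exact h (mem_range_of_toOnePoint_eq hx.symm)

lemma isOpen_range_unit : IsOpen (range (stoneCechUnit : X → StoneCech X)) := by
  have : range (stoneCechUnit : X → StoneCech X) =
      toOnePoint (X := X) ⁻¹' (range ((↑) : X → OnePoint X)) := by
    ext z
    constructor
    · rintro ⟨x, rfl⟩
      exact ⟨x, (toOnePoint_unit x).symm⟩
    · rintro ⟨x, hx⟩
      exact mem_range_of_toOnePoint_eq hx.symm
  rw [this]
  exact OnePoint.isOpenEmbedding_coe.isOpen_range.preimage continuous_toOnePoint

lemma isClosed_remainder : IsClosed (remainder X) := isOpen_range_unit.isClosed_compl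

lemma isCompact_remainder : IsCompact (remainder X) := isClosed_remainder.isCompact

lemma remainder_nonempty [NormalSpace X] [NoncompactSpace X] : (remainder X).Nonempty := by
  by_contra h
  rw [not_nonempty_iff_eq_empty, compl_empty_iff] at h
  have h1 : IsCompact (range (stoneCechUnit : X → StoneCech X)) := by
    rw [h]; exact isCompact_univ
  have h2 : IsInducing (stoneCechUnit : X → StoneCech X) := isInducing_stoneCechUnit
  rw [← image_univ, ← h2.isCompact_iff] at h1
  exact noncompact_univ X h1

end LC

section Normal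

/-- Disjoint closed sets of a normal space have disjoint closures in the
Stone-Čech compactification. -/
lemma disjoint_closure_image [NormalSpace X] {A B : Set X} (hA : IsClosed A) (hB : IsClosed B)
    (hAB : Disjoint A B) :
    Disjoint (closure (stoneCechUnit '' A : Set (StoneCech X))) (closure (stoneCechUnit '' B)) := by
  obtain ⟨f, hf0, hf1, hf⟩ := exists_continuous_zero_one_of_isClosed hA hB hAB
  let g : X → Icc (0 : ℝ) 1 := fun x => ⟨f x, hf x⟩
  have hg : Continuous g := by fun_prop
  have hG := continuous_stoneCechExtend hg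
  rw [Set.disjoint_left]
  intro z hzA hzB
  have h0 : stoneCechExtend hg z = ⟨0, by simp⟩ := by
    have : closure (stoneCechUnit '' A : Set (StoneCech X)) ⊆
        stoneCechExtend hg ⁻¹' {⟨0, by simp⟩} := by
      apply closure_minimal
      · rintro _ ⟨x, hx, rfl⟩
        simp only [mem_preimage, stoneCechExtend_stoneCechUnit, mem_singleton_iff]
        exact Subtype.ext (hf0 hx)
      · exact isClosed_singleton.preimage hG
    exact this hzA
  have h1 : stoneCechExtend hg z = ⟨1, by simp⟩ := by
    have : closure (stoneCechUnit '' B : Set (StoneCech X)) ⊆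
        stoneCechExtend hg ⁻¹' {⟨1, by simp⟩} := by
      apply closure_minimal
      · rintro _ ⟨x, hx, rfl⟩
        simp only [mem_preimage, stoneCechExtend_stoneCechUnit, mem_singleton_iff]
        exact Subtype.ext (hf1 hx)
      · exact isClosed_singleton.preimage hG
    exact this hzB
  rw [h0] at h1
  simp at h1

/-- Localisation of closures. -/
lemma mem_closure_image_inter {A : Set X} {U : Set (StoneCech X)} (hU : IsOpen U) {z : StoneCech X}
    (hzU : z ∈ U) (hz : z ∈ closure (stoneCechUnit '' A : Set (StoneCech X))) :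
    z ∈ closure (stoneCechUnit '' (A ∩ stoneCechUnit ⁻¹' U) : Set (StoneCech X)) := by
  rw [mem_closure_iff] at hz ⊢
  intro V hV hzV
  obtain ⟨w, ⟨hwV, hwU⟩, ⟨x, hx, rfl⟩⟩ := hz (V ∩ U) (hV.inter hU) ⟨hzV, hzU⟩
  exact ⟨_, hwV, x, ⟨hx, hwU⟩, rfl⟩

lemma mem_closure_image_univ (z : StoneCech X) :
    z ∈ closure (stoneCechUnit '' (univ : Set X) : Set (StoneCech X)) := by
  rw [image_univ]
  exact denseRange_stoneCechUnit z

end Normal

/-- **Key connectedness statement.** Let `X` be locally compact, normal, Hausdorff with connected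
remainder. Remove a discrete family of relatively compact open sets with connected boundaries and
disjoint closures. The remainder of what is left is connected. -/
theorem isPreconnected_remainder_compl [T2Space X] [NormalSpace X] [LocallyCompactSpace X]
    (hR : IsPreconnected (remainder X)) {J : Type*} (O : J → Set X) (hO : ∀ j, IsOpen (O j))
    (hcpt : ∀ j, IsCompact (closure (O j)))
    (hdisj : Pairwise fun i j => Disjoint (closure (O i)) (closure (O j)))
    (hfin : LocallyFinite O) (hfr : ∀ j, IsPreconnected (frontier (O j))) :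
    IsPreconnected (closure (stoneCechUnit '' (⋃ j, O j)ᶜ : Set (StoneCech X)) ∩ remainder X) := by
  set W : Set X := (⋃ j, O j)ᶜ with hW
  have hWc : IsClosed W := (isOpen_iUnion hO).isClosed_compl
  set K := closure (stoneCechUnit '' W : Set (StoneCech X)) ∩ remainder X with hK
  have hKc : IsClosed K := isClosed_closure.inter isClosed_remainder
  have hemb : IsInducing (stoneCechUnit : X → StoneCech X) := isInducing_stoneCechUnit
  rw [isPreconnected_closed_iff]
  intro t t' ht ht' hKtt' hKt hKt'
  by_contra hcon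
  have hdis : Disjoint (K ∩ t) (K ∩ t') := by
    rw [Set.disjoint_left]
    rintro z ⟨hz1, hz2⟩ ⟨_, hz3⟩
    exact hcon ⟨z, hz1, hz2, hz3⟩
  obtain ⟨G, hG0, hG1, hG⟩ := exists_continuous_zero_one_of_isClosed (hKc.inter ht)
    (hKc.inter ht') hdis
  have hGK : ∀ z ∈ K, G z = 0 ∨ G z = 1 := by
    intro z hz
    rcases hKtt' hz with h | h
    · exact Or.inl (hG0 ⟨hz, h⟩)
    · exact Or.inr (hG1 ⟨hz, h⟩)
  let g : X → ℝ := fun x => G (stoneCechUnit x)
  have hg : Continuous g := G.continuous.comp continuous_stoneCechUnit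
  -- the transition region is compact
  let Z : Set X := W ∩ g ⁻¹' (Icc (1/3) (2/3))
  have hZc : IsClosed Z := hWc.inter (isClosed_Icc.preimage hg)
  have hZcl : closure (stoneCechUnit '' Z : Set (StoneCech X)) ⊆
      closure (stoneCechUnit '' W) ∩ G ⁻¹' (Icc (1/3) (2/3)) := by
    apply closure_minimal
    · rintro _ ⟨x, hx, rfl⟩
      exact ⟨subset_closure ⟨x, hx.1, rfl⟩, hx.2⟩
    · exact isClosed_closure.inter (isClosed_Icc.preimage G.continuous)
  have hZr : closure (stoneCechUnit '' Z : Set (StoneCech X)) ⊆ range stoneCechUnit := by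
    intro z hz
    by_contra hzr
    have h1 := hZcl hz
    have h2 : z ∈ K := ⟨h1.1, hzr⟩
    have h3 := h1.2
    simp only [mem_preimage, mem_Icc] at h3
    rcases hGK z h2 with h | h <;> rw [h] at h3 <;> norm_num at h3
  have hZ : IsCompact Z := by
    rw [hemb.isCompact_iff]
    have : stoneCechUnit '' Z = closure (stoneCechUnit '' Z : Set (StoneCech X)) := by
      apply subset_antisymm subset_closure
      intro z hz
      obtain ⟨x, rfl⟩ := hZr hz
      refine ⟨x, ?_, rfl⟩
      rw [← hZc.closure_eq, hemb.closure_eq_preimage_closure_image]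
      exact hz
    rw [this]
    exact isClosed_closure.isCompact
  -- frontier points are in `W`
  have hfrW : ∀ j, frontier (O j) ⊆ W := by
    intro j x hx hxO
    obtain ⟨i, hi⟩ := mem_iUnion.mp hxO
    rw [frontier, (hO j).interior_eq] at hx
    by_cases hij : i = j
    · subst hij
      exact hx.2 hi
    · exact Set.disjoint_left.mp (hdisj hij) (subset_closure hi) hx.1
  have hclW : ∀ j, closure (O j) ∩ W ⊆ frontier (O j) := by
    rintro j x ⟨hx, hxW⟩
    rw [frontier, (hO j).interior_eq]
    exact ⟨hx, fun h => hxW (mem_iUnion.mpr ⟨j, h⟩)⟩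
  let J1 : Set J := {j | Disjoint (closure (O j)) Z ∧ ∀ x ∈ frontier (O j), g x < 1/3}
  let J2 : Set J := {j | Disjoint (closure (O j)) Z ∧ ¬ ∀ x ∈ frontier (O j), g x < 1/3}
  let J3 : Set J := {j | (closure (O j) ∩ Z).Nonempty}
  have hJ2 : ∀ j ∈ J2, ∀ x ∈ frontier (O j), 2/3 < g x := by
    rintro j ⟨hj1, hj2⟩ x hx
    push Not at hj2
    obtain ⟨x₀, hx₀, hgx₀⟩ := hj2
    by_contra hle
    rw [not_lt] at hle
    have hnot : ∀ w ∈ frontier (O j), g w ∉ Icc (1/3 : ℝ) (2/3) := by
      intro w hw hw'
      exact Set.disjoint_left.mp hj1 (frontier_subset_closure hw) ⟨hfrW j hw, hw'⟩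
    have h1 : 2/3 < g x₀ := by
      by_contra h
      exact hnot x₀ hx₀ ⟨hgx₀, not_lt.mp h⟩
    have h2 : g x < 1/3 := by
      by_contra h
      exact hnot x hx ⟨not_lt.mp h, hle⟩
    obtain ⟨w, hw, hgw⟩ := (hfr j).intermediate_value hx hx₀ hg.continuousOn
      (⟨by linarith, by linarith⟩ : (1/2 : ℝ) ∈ Icc (g x) (g x₀))
    exact hnot w hw ⟨by rw [hgw]; norm_num, by rw [hgw]; norm_num⟩
  have hJ3 : J3.Finite := hfin.closure.finite_nonempty_inter_compact hZ
  let P1 : Set X := (W ∩ g ⁻¹' (Iic (1/3))) ∪ ⋃ j : J1, closure (O j)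
  let P2 : Set X := (W ∩ g ⁻¹' (Ici (2/3))) ∪ ⋃ j : J2, closure (O j)
  let C : Set X := Z ∪ ⋃ j ∈ J3, closure (O j)
  have hP1 : IsClosed P1 := by
    refine (hWc.inter (isClosed_Iic.preimage hg)).union ?_
    exact (hfin.closure.comp_injective Subtype.val_injective).isClosed_iUnion
      fun j => isClosed_closure
  have hP2 : IsClosed P2 := by
    refine (hWc.inter (isClosed_Ici.preimage hg)).union ?_
    exact (hfin.closure.comp_injective Subtype.val_injective).isClosed_iUnion
      fun j => isClosed_closure
  have hC : IsCompact C := hZ.union (hJ3.isCompact_biUnion fun j _ => hcpt j)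
  have hdisjP : Disjoint P1 P2 := by
    rw [Set.disjoint_left]
    rintro x (⟨hxW, hx⟩ | hx) (⟨hxW', hx'⟩ | hx')
    · simp only [mem_preimage, mem_Iic, mem_Ici] at hx hx'
      linarith
    · obtain ⟨⟨j, hj⟩, hxj⟩ := mem_iUnion.mp hx'
      have := hJ2 j hj x (hclW j ⟨hxj, hxW⟩)
      simp only [mem_preimage, mem_Iic] at hx
      linarith
    · obtain ⟨⟨j, hj⟩, hxj⟩ := mem_iUnion.mp hx
      have := hj.2 x (hclW j ⟨hxj, hxW'⟩)
      simp only [mem_preimage, mem_Ici] at hx'
      linarith
    · obtain ⟨⟨j, hj⟩, hxj⟩ := mem_iUnion.mp hx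
      obtain ⟨⟨i, hi⟩, hxi⟩ := mem_iUnion.mp hx'
      by_cases hij : i = j
      · subst hij
        exact hi.2 hj.2
      · exact Set.disjoint_left.mp (hdisj hij) hxi hxj
  have hcov : (univ : Set X) ⊆ P1 ∪ P2 ∪ C := by
    intro x _
    by_cases hxW : x ∈ W
    · rcases le_or_gt (g x) (1/3) with h | h
      · exact Or.inl (Or.inl (Or.inl ⟨hxW, h⟩))
      · rcases le_or_gt (2/3) (g x) with h' | h'
        · exact Or.inl (Or.inr (Or.inl ⟨hxW, h'⟩))
        · exact Or.inr (Or.inl ⟨hxW, h.le, h'.le⟩)
    · rw [hW, mem_compl_iff, not_not] at hxW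
      obtain ⟨j, hj⟩ := mem_iUnion.mp hxW
      by_cases h3 : j ∈ J3
      · exact Or.inr (Or.inr (mem_biUnion h3 (subset_closure hj)))
      · have hd : Disjoint (closure (O j)) Z := by
          rw [Set.disjoint_iff_inter_eq_empty]
          exact not_nonempty_iff_eq_empty.mp h3
        by_cases h1 : ∀ x ∈ frontier (O j), g x < 1/3
        · exact Or.inl (Or.inl (Or.inr (mem_iUnion.mpr ⟨⟨j, hd, h1⟩, subset_closure hj⟩)))
        · exact Or.inl (Or.inr (Or.inr (mem_iUnion.mpr ⟨⟨j, hd, h1⟩, subset_closure hj⟩)))
  have hRcov : remainder X ⊆ closure (stoneCechUnit '' P1) ∪ closure (stoneCechUnit '' P2) := by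
    intro z hz
    have h1 : z ∈ closure (stoneCechUnit '' (P1 ∪ P2 ∪ C) : Set (StoneCech X)) :=
      closure_mono (image_mono hcov) (mem_closure_image_univ z)
    rw [image_union, image_union, closure_union, closure_union] at h1
    rcases h1 with h1 | h1
    · exact h1
    · exfalso
      rw [(hC.image continuous_stoneCechUnit).isClosed.closure_eq] at h1
      exact hz (image_subset_range _ _ h1)
  have hcd := disjoint_closure_image hP1 hP2 hdisjP
  -- both pieces meet the remainder
  obtain ⟨p, hpK, hpt⟩ := hKt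
  obtain ⟨q, hqK, hqt⟩ := hKt'
  have hp : p ∈ closure (stoneCechUnit '' P1 : Set (StoneCech X)) := by
    have hopen : IsOpen (G ⁻¹' (Iio (1/3)) : Set (StoneCech X)) := isOpen_Iio.preimage G.continuous
    have hpG : p ∈ (G ⁻¹' (Iio (1/3)) : Set (StoneCech X)) := by
      have h := hG0 ⟨hpK, hpt⟩
      simp only [mem_preimage, mem_Iio, h]
      norm_num
    refine closure_mono (image_mono ?_) (mem_closure_image_inter hopen hpG hpK.1)
    rintro x ⟨hxW, hx⟩
    exact Or.inl ⟨hxW, (show g x < 1/3 from hx).le⟩
  have hq : q ∈ closure (stoneCechUnit '' P2 : Set (StoneCech X)) := by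
    have hopen : IsOpen (G ⁻¹' (Ioi (2/3)) : Set (StoneCech X)) := isOpen_Ioi.preimage G.continuous
    have hqG : q ∈ (G ⁻¹' (Ioi (2/3)) : Set (StoneCech X)) := by
      have h := hG1 ⟨hqK, hqt⟩
      simp only [mem_preimage, mem_Ioi, h]
      norm_num
    refine closure_mono (image_mono ?_) (mem_closure_image_inter hopen hqG hqK.1)
    rintro x ⟨hxW, hx⟩
    exact Or.inl ⟨hxW, (show 2/3 < g x from hx).le⟩
  obtain ⟨z, -, hz1, hz2⟩ := isPreconnected_closed_iff.mp hR _ _ isClosed_closure isClosed_closure
    hRcov ⟨p, hpK.2, hp⟩ ⟨q, hqK.2, hq⟩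
  exact Set.disjoint_left.mp hcd hz1 hz2

/-- If a noncompact locally compact normal Hausdorff space admits no two-point compactification,
its remainder is connected. -/
theorem isPreconnected_remainder {X : Type} [TopologicalSpace X] [T2Space X] [NormalSpace X]
    [LocallyCompactSpace X]
    (h : ¬ ∃ (Y : Type) (_ : TopologicalSpace Y), CompactSpace Y ∧ T2Space Y ∧
          ∃ f : X → Y, Topology.IsEmbedding f ∧ DenseRange f ∧ (Set.range f)ᶜ.ncard = 2) :
    IsPreconnected (remainder X) := by
  rw [isPreconnected_closed_iff]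
  intro t t' ht ht' hRtt' hRt hRt'
  by_contra hcon
  apply h
  have hdis : Disjoint (remainder X ∩ t) (remainder X ∩ t') := by
    rw [Set.disjoint_left]
    rintro z ⟨hz1, hz2⟩ ⟨_, hz3⟩
    exact hcon ⟨z, hz1, hz2, hz3⟩
  obtain ⟨G, hG0, hG1, hG⟩ := exists_continuous_zero_one_of_isClosed
    (isClosed_remainder.inter ht) (isClosed_remainder.inter ht') hdis
  let Φ : StoneCech X → OnePoint X × ℝ := fun z => (toOnePoint z, G z)
  have hΦ : Continuous Φ := continuous_toOnePoint.prodMk G.continuous
  have hcompact : IsCompact (range Φ) := isCompact_range hΦ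
  let f : X → range Φ := fun x => ⟨Φ (stoneCechUnit x), mem_range_self _⟩
  refine ⟨range Φ, inferInstance, isCompact_iff_compactSpace.mp hcompact, inferInstance, f, ?_, ?_,
    ?_⟩
  · have hcont : Continuous f :=
      Continuous.subtype_mk (hΦ.comp continuous_stoneCechUnit) _
    have hproj : Continuous (fun y : range Φ => (y : OnePoint X × ℝ).1) :=
      continuous_fst.comp continuous_subtype_val
    refine Topology.IsEmbedding.of_comp hcont hproj ?_
    have : (fun y : range Φ => (y : OnePoint X × ℝ).1) ∘ f = ((↑) : X → OnePoint X) := by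
      funext x
      exact toOnePoint_unit x
    rw [this]
    exact OnePoint.isOpenEmbedding_coe.isEmbedding
  · have : f = rangeFactorization Φ ∘ stoneCechUnit := rfl
    rw [this]
    exact (rangeFactorization_surjective.denseRange).comp denseRange_stoneCechUnit
      (Continuous.subtype_mk hΦ _)
  · obtain ⟨p, hpR, hpt⟩ := hRt
    obtain ⟨q, hqR, hqt⟩ := hRt'
    have hGp : G p = 0 := hG0 ⟨hpR, hpt⟩
    have hGq : G q = 1 := hG1 ⟨hqR, hqt⟩
    have hrange : (range f)ᶜ = {(⟨Φ p, mem_range_self _⟩ : range Φ), ⟨Φ q, mem_range_self _⟩} := by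
      ext ⟨y, hy⟩
      simp only [mem_compl_iff, mem_insert_iff, mem_singleton_iff, Subtype.mk.injEq]
      obtain ⟨z, rfl⟩ := hy
      constructor
      · intro hz
        have hzR : z ∈ remainder X := by
          rintro ⟨x, rfl⟩
          exact hz ⟨x, rfl⟩
        rcases hRtt' hzR with h1 | h1
        · left
          simp only [Φ, toOnePoint_eq_infty hzR, toOnePoint_eq_infty hpR, hGp, hG0 ⟨hzR, h1⟩]
          rfl
        · right
          simp only [Φ, toOnePoint_eq_infty hzR, toOnePoint_eq_infty hqR, hGq, hG1 ⟨hzR, h1⟩]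
          rfl
      · rintro hz ⟨x, hx⟩
        have hx' : Φ (stoneCechUnit x) = Φ z := congrArg Subtype.val hx
        have hx1 : (x : OnePoint X) = toOnePoint z := by
          rw [← toOnePoint_unit x]
          exact congrArg Prod.fst hx'
        have : toOnePoint z = OnePoint.infty := by
          rcases hz with hz | hz
          · rw [show toOnePoint z = toOnePoint p from congrArg Prod.fst hz,
              toOnePoint_eq_infty hpR]
          · rw [show toOnePoint z = toOnePoint q from congrArg Prod.fst hz,
              toOnePoint_eq_infty hqR]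
        rw [this] at hx1
        exact OnePoint.coe_ne_infty x hx1
    rw [hrange]
    apply ncard_pair
    intro heq
    have h1 : Φ p = Φ q := congrArg Subtype.val heq
    have h2 : G p = G q := congrArg Prod.snd h1
    rw [hGp, hGq] at h2
    exact zero_ne_one h2

end Pool.Agent.H83
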