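import Mathlib
import Pool.Agent.H83.Remainder
import Pool.Agent.H83.Covering

/-!
# Remainders of manifolds are aposyndetic
-/

namespace Pool.Agent.H83

open Set Topology Filter Metric

variable {M : Type*} [TopologicalSpace M]

/-- Small cubes inside a single chart. -/
lemma chart_cubes [T2Space M] {n : ℕ} (hn : 1 < n) (φ : OpenPartialHomeomorph M (Fin n → ℝ))
    {V C U₀ U₁ : Set M} (hV : IsOpen V) (hVφ : V ⊆ φ.source) (hC : IsCompact C) (hCV : C ⊆ V)
    (hU₀ : IsOpen U₀) (hU₁ : IsOpen U₁) (hU : U₀ ∪ U₁ = univ) :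
    ∃ O D : (Fin n → ℤ) → Set M, (∀ m, IsOpen (O m)) ∧ (∀ m, IsCompact (closure (O m))) ∧
      (∀ m, closure (O m) ⊆ V) ∧ (∀ m, IsPreconnected (frontier (O m))) ∧
      (∀ m, O m ⊆ U₀ ∨ O m ⊆ U₁) ∧ (∀ m, IsCompact (D m)) ∧ (∀ m, D m ⊆ O m) ∧
      C ⊆ ⋃ m, D m ∧ {m | (O m).Nonempty}.Finite ∧
      ∀ m m', m ≠ m' → (∀ k, (m k : ZMod 2) = (m' k : ZMod 2)) →
        Disjoint (closure (O m)) (closure (O m')) := by
  classical
  set K : Set (Fin n → ℝ) := φ '' C with hKdef
  have hCφ : C ⊆ φ.source := hCV.trans hVφ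
  have hK : IsCompact K := hC.image_of_continuousOn (φ.continuousOn.mono hCφ)
  let c : Bool → Set (Fin n → ℝ) := fun b => φ '' (V ∩ (if b then U₀ else U₁))
  have hc : ∀ b, IsOpen (c b) := by
    intro b
    refine φ.isOpen_image_of_subset_source (hV.inter ?_) (inter_subset_left.trans hVφ)
    cases b
    · simpa using hU₁
    · simpa using hU₀
  have hKc : K ⊆ ⋃ b, c b := by
    rintro _ ⟨x, hx, rfl⟩
    have hxU : x ∈ U₀ ∪ U₁ := by rw [hU]; trivial
    rcases hxU with h | h
    · exact mem_iUnion.mpr ⟨true, x, ⟨hCV hx, by simpa using h⟩, rfl⟩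
    · exact mem_iUnion.mpr ⟨false, x, ⟨hCV hx, by simpa using h⟩, rfl⟩
  obtain ⟨δ, hδ, hleb⟩ := lebesgue_number_lemma_of_metric hK hc hKc
  set r : ℝ := δ / 2 with hr
  have hr0 : 0 < r := by positivity
  let good : (Fin n → ℤ) → Prop := fun m => (closedBall (latt r m) (r / 2) ∩ K).Nonempty
  have hgood : ∀ m, good m → ∃ b, closedBall (latt r m) (3 * r / 4) ⊆ c b := by
    rintro m ⟨x, hxm, hxK⟩
    obtain ⟨b, hb⟩ := hleb x hxK
    refine ⟨b, Subset.trans ?_ hb⟩
    intro y hy
    rw [mem_closedBall] at hy hxm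
    rw [mem_ball]
    calc dist y x ≤ dist y (latt r m) + dist x (latt r m) := dist_triangle_right _ _ _
      _ ≤ 3 * r / 4 + r / 2 := add_le_add hy hxm
      _ < δ := by rw [hr] at hr0 ⊢; linarith
  have hcV : ∀ b, c b ⊆ φ '' V := fun b => image_mono inter_subset_left
  let O : (Fin n → ℤ) → Set M := fun m =>
    if good m then φ.source ∩ φ ⁻¹' (ball (latt r m) (3 * r / 4)) else ∅
  let D : (Fin n → ℤ) → Set M := fun m =>
    if good m then C ∩ φ ⁻¹' (closedBall (latt r m) (r / 2)) else ∅
  have hOg : ∀ m, good m → O m = φ.source ∩ φ ⁻¹' (ball (latt r m) (3 * r / 4)) :=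
    fun m hm => if_pos hm
  have hOn : ∀ m, ¬ good m → O m = ∅ := fun m hm => if_neg hm
  have hDg : ∀ m, good m → D m = C ∩ φ ⁻¹' (closedBall (latt r m) (r / 2)) :=
    fun m hm => if_pos hm
  have hDn : ∀ m, ¬ good m → D m = ∅ := fun m hm => if_neg hm
  -- the closed cubes, pulled back
  let Q : (Fin n → ℤ) → Set M := fun m => φ.symm '' (closedBall (latt r m) (3 * r / 4))
  have hQsub : ∀ m, good m → closedBall (latt r m) (3 * r / 4) ⊆ φ.target := by
    intro m hm
    obtain ⟨b, hb⟩ := hgood m hm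
    refine (hb.trans (hcV b)).trans ?_
    rintro _ ⟨x, hx, rfl⟩
    exact φ.map_source (hVφ hx)
  have hQeq : ∀ m, good m → Q m = φ.source ∩ φ ⁻¹' (closedBall (latt r m) (3 * r / 4)) := by
    intro m hm
    exact φ.symm_image_eq_source_inter_preimage (hQsub m hm)
  have hQc : ∀ m, good m → IsCompact (Q m) := fun m hm =>
    (isCompact_closedBall _ _).image_of_continuousOn (φ.symm.continuousOn.mono (hQsub m hm))
  have hclO : ∀ m, good m → closure (O m) ⊆ Q m := by
    intro m hm
    apply closure_minimal _ (hQc m hm).isClosed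
    rw [hOg m hm, hQeq m hm]
    exact inter_subset_inter_right _ (preimage_mono ball_subset_closedBall)
  have hQV : ∀ m, good m → Q m ⊆ V := by
    intro m hm
    obtain ⟨b, hb⟩ := hgood m hm
    rw [hQeq m hm]
    rintro x ⟨hx, hxm⟩
    obtain ⟨y, hy, hyx⟩ := hcV b (hb hxm)
    rwa [φ.injOn (hVφ hy) hx hyx] at hy
  refine ⟨O, D, ?_, ?_, ?_, ?_, ?_, ?_, ?_, ?_, ?_, ?_⟩
  · intro m
    by_cases hm : good m
    · rw [hOg m hm]
      exact φ.isOpen_inter_preimage isOpen_ball
    · rw [hOn m hm]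
      exact isOpen_empty
  · intro m
    by_cases hm : good m
    · exact (hQc m hm).of_isClosed_subset isClosed_closure (hclO m hm)
    · rw [hOn m hm, closure_empty]
      exact isCompact_empty
  · intro m
    by_cases hm : good m
    · exact (hclO m hm).trans (hQV m hm)
    · rw [hOn m hm, closure_empty]
      exact empty_subset _
  · intro m
    by_cases hm : good m
    · have himg : φ.IsImage (O m) (ball (latt r m) (3 * r / 4)) := by
        intro x hx
        rw [hOg m hm]
        exact ⟨fun h => ⟨hx, h⟩, fun h => h.2⟩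
      have hfr := himg.frontier
      rw [frontier_ball _ (by positivity : (3 * r / 4 : ℝ) ≠ 0)] at hfr
      have hfrO : frontier (O m) = φ.symm '' (sphere (latt r m) (3 * r / 4)) := by
        rw [φ.symm_image_eq_source_inter_preimage (sphere_subset_closedBall.trans (hQsub m hm))]
        ext x
        constructor
        · intro hx
          have hxs : x ∈ φ.source := hVφ (hQV m hm (hclO m hm (frontier_subset_closure hx)))
          exact ⟨hxs, (hfr hxs).mpr hx⟩
        · rintro ⟨hxs, hx⟩
          exact (hfr hxs).mp hx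
      rw [hfrO]
      refine IsPreconnected.image ?_ _
        (φ.symm.continuousOn.mono (sphere_subset_closedBall.trans (hQsub m hm)))
      apply isPreconnected_sphere
      rw [rank_fin_fun]
      exact_mod_cast hn
    · rw [hOn m hm, frontier_empty]
      exact isPreconnected_empty
  · intro m
    by_cases hm : good m
    · obtain ⟨b, hb⟩ := hgood m hm
      have key : O m ⊆ (if b then U₀ else U₁) := by
        rw [hOg m hm]
        rintro x ⟨hx, hxm⟩
        obtain ⟨y, ⟨hyV, hyU⟩, hyx⟩ := hb (ball_subset_closedBall hxm)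
        rwa [φ.injOn (hVφ hyV) hx hyx] at hyU
      cases b
      · right; simpa using key
      · left; simpa using key
    · left
      rw [hOn m hm]
      exact empty_subset _
  · intro m
    by_cases hm : good m
    · rw [hDg m hm]
      have h1 : IsClosed (C ∩ φ ⁻¹' (closedBall (latt r m) (r / 2))) :=
        (φ.continuousOn.mono hCφ).preimage_isClosed_of_isClosed hC.isClosed isClosed_closedBall
      exact hC.of_isClosed_subset h1 inter_subset_left
    · rw [hDn m hm]
      exact isCompact_empty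
  · intro m
    by_cases hm : good m
    · rw [hDg m hm, hOg m hm]
      rintro x ⟨hx, hxm⟩
      exact ⟨hCφ hx, closedBall_subset_ball (by linarith) hxm⟩
    · rw [hDn m hm]
      exact empty_subset _
  · intro x hx
    obtain ⟨m, hm⟩ := exists_latt hr0 (φ x)
    have hg : good m := ⟨φ x, hm, x, hx, rfl⟩
    refine mem_iUnion.mpr ⟨m, ?_⟩
    rw [hDg m hg]
    exact ⟨hx, hm⟩
  · -- finiteness, by compactness
    obtain ⟨R, hR⟩ := hK.isBounded.subset_closedBall (0 : Fin n → ℝ)
    obtain ⟨B, hB⟩ := exists_nat_ge ((R + r / 2) / r)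
    have hsub : {m | (O m).Nonempty} ⊆
        (Fintype.piFinset fun _ : Fin n => Finset.Icc (-(B : ℤ)) B : Set (Fin n → ℤ)) := by
      intro m hm
      have hg : good m := by
        by_contra h
        rw [mem_ofPred_eq, hOn m h] at hm
        exact not_nonempty_empty hm
      obtain ⟨x, hxm, hxK⟩ := hg
      have hxR := hR hxK
      rw [mem_closedBall] at hxm hxR
      have h1 : dist (latt r m) 0 ≤ R + r / 2 := by
        calc dist (latt r m) 0 ≤ dist (latt r m) x + dist x 0 := dist_triangle _ _ _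
          _ ≤ r / 2 + R := by rw [dist_comm (latt r m) x]; exact add_le_add hxm hxR
          _ = R + r / 2 := by ring
      simp only [Finset.mem_coe, Fintype.mem_piFinset, Finset.mem_Icc]
      intro k
      have h2 : |r * (m k : ℝ)| ≤ R + r / 2 := by
        have := dist_le_pi_dist (latt r m) 0 k
        rw [Real.dist_eq] at this
        simp only [latt, Pi.zero_apply, sub_zero] at this
        exact this.trans h1
      rw [abs_mul, abs_of_pos hr0] at h2
      have h3 : |(m k : ℝ)| ≤ B := by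
        refine le_trans ?_ hB
        rw [le_div_iff₀ hr0]
        linarith
      rw [abs_le] at h3
      constructor
      · have := h3.1
        exact_mod_cast this
      · have := h3.2
        exact_mod_cast this
    exact (Finset.finite_toSet _).subset hsub
  · intro m m' hne hpar
    by_cases hm : good m
    · by_cases hm' : good m'
      · refine Disjoint.mono (hclO m hm) (hclO m' hm') ?_
        rw [Set.disjoint_left, hQeq m hm, hQeq m' hm']
        rintro x ⟨-, hx1⟩ ⟨-, hx2⟩
        rw [mem_preimage, mem_closedBall] at hx1 hx2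
        obtain ⟨k, hk⟩ : ∃ k, m k ≠ m' k := by
          by_contra hcon
          push Not at hcon
          exact hne (funext hcon)
        have h1 : |r * (m k : ℝ) - r * (m' k : ℝ)| ≤ 3 * r / 4 + 3 * r / 4 := by
          have h2 := dist_le_pi_dist (latt r m) (latt r m') k
          rw [Real.dist_eq] at h2
          refine h2.trans ((dist_triangle_left _ _ (φ x)).trans (add_le_add hx1 hx2))
        have h3 : (2 : ℤ) ≤ |m k - m' k| := by
          have h4 : ((m k - m' k : ℤ) : ZMod 2) = 0 := by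
            push_cast
            rw [hpar k, sub_self]
          rw [ZMod.intCast_zmod_eq_zero_iff_dvd] at h4
          obtain ⟨q, hq⟩ := h4
          have hq0 : q ≠ 0 := by
            rintro rfl
            simp at hq
            omega
          have hq1 : 1 ≤ |q| := Int.one_le_abs hq0
          push_cast at hq
          rw [hq, abs_mul]
          norm_num
          linarith
        have h5 : (2 : ℝ) ≤ |(m k : ℝ) - m' k| := by exact_mod_cast h3
        rw [← mul_sub, abs_mul, abs_of_pos hr0] at h1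
        nlinarith
      · rw [hOn m' hm', closure_empty]
        exact disjoint_empty _
    · rw [hOn m hm, closure_empty]
      exact empty_disjoint _

/-- Discrete families of cubes. -/
lemma family_cubes [T2Space M] {n : ℕ} (hn : 1 < n) {J : Type*}
    (φ : J → OpenPartialHomeomorph M (Fin n → ℝ)) (V C : J → Set M)
    (hV : ∀ j, IsOpen (V j)) (hVφ : ∀ j, V j ⊆ (φ j).source) (hC : ∀ j, IsCompact (C j))
    (hCV : ∀ j, C j ⊆ V j) (hdisj : ∀ i j, i ≠ j → Disjoint (V i) (V j)) (hfin : LocallyFinite V)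
    {U₀ U₁ : Set M} (hU₀ : IsOpen U₀) (hU₁ : IsOpen U₁) (hU : U₀ ∪ U₁ = univ) :
    ∃ O D : (Fin n → ZMod 2) → (J × (Fin n → ℤ)) → Set M,
      (∀ ε p, IsOpen (O ε p)) ∧ (∀ ε p, IsCompact (closure (O ε p))) ∧
      (∀ ε, Pairwise fun p q => Disjoint (closure (O ε p)) (closure (O ε q))) ∧
      (∀ ε, LocallyFinite (O ε)) ∧ (∀ ε p, IsPreconnected (frontier (O ε p))) ∧
      (∀ ε p, O ε p ⊆ U₀ ∨ O ε p ⊆ U₁) ∧ (∀ ε p, IsClosed (D ε p)) ∧
      (∀ ε p, D ε p ⊆ O ε p) ∧ ⋃ j, C j ⊆ ⋃ ε, ⋃ p, D ε p := by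
  classical
  choose O D h1 h2 h3 h4 h5 h6 h7 h8 h9 h10 using fun j =>
    chart_cubes hn (φ j) (hV j) (hVφ j) (hC j) (hCV j) hU₀ hU₁ hU
  let O' : (Fin n → ZMod 2) → (J × (Fin n → ℤ)) → Set M := fun ε p =>
    if (∀ k, (p.2 k : ZMod 2) = ε k) then O p.1 p.2 else ∅
  let D' : (Fin n → ZMod 2) → (J × (Fin n → ℤ)) → Set M := fun ε p =>
    if (∀ k, (p.2 k : ZMod 2) = ε k) then D p.1 p.2 else ∅
  have hO'g : ∀ ε p, (∀ k, (p.2 k : ZMod 2) = ε k) → O' ε p = O p.1 p.2 := fun ε p h => if_pos h
  have hO'n : ∀ ε p, (¬ ∀ k, (p.2 k : ZMod 2) = ε k) → O' ε p = ∅ := fun ε p h => if_neg h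
  have hD'g : ∀ ε p, (∀ k, (p.2 k : ZMod 2) = ε k) → D' ε p = D p.1 p.2 := fun ε p h => if_pos h
  have hD'n : ∀ ε p, (¬ ∀ k, (p.2 k : ZMod 2) = ε k) → D' ε p = ∅ := fun ε p h => if_neg h
  refine ⟨O', D', ?_, ?_, ?_, ?_, ?_, ?_, ?_, ?_, ?_⟩
  · intro ε p
    by_cases h : ∀ k, (p.2 k : ZMod 2) = ε k
    · rw [hO'g ε p h]; exact h1 _ _
    · rw [hO'n ε p h]; exact isOpen_empty
  · intro ε p
    by_cases h : ∀ k, (p.2 k : ZMod 2) = ε k
    · rw [hO'g ε p h]; exact h2 _ _
    · rw [hO'n ε p h, closure_empty]; exact isCompact_empty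
  · intro ε p q hpq
    by_cases hp : ∀ k, (p.2 k : ZMod 2) = ε k
    · by_cases hq : ∀ k, (q.2 k : ZMod 2) = ε k
      · simp only [hO'g ε p hp, hO'g ε q hq]
        by_cases hj : p.1 = q.1
        · have hm : p.2 ≠ q.2 := fun h => hpq (Prod.ext hj h)
          rw [hj]
          exact h10 _ _ _ hm fun k => (hp k).trans (hq k).symm
        · exact (hdisj _ _ hj).mono (h3 _ _) (h3 _ _)
      · simp only [hO'n ε q hq, closure_empty]
        exact disjoint_empty _
    · simp only [hO'n ε p hp, closure_empty]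
      exact empty_disjoint _
  · intro ε x
    obtain ⟨G, hG, hGfin⟩ := hfin x
    refine ⟨G, hG, ?_⟩
    have hsub : {p | (O' ε p ∩ G).Nonempty} ⊆
        ⋃ j ∈ {j | (V j ∩ G).Nonempty}, (fun m => (j, m)) '' {m | (O j m).Nonempty} := by
      rintro ⟨j, m⟩ ⟨y, hy, hyG⟩
      by_cases h : ∀ k, (((j, m) : J × (Fin n → ℤ)).2 k : ZMod 2) = ε k
      · rw [hO'g ε _ h] at hy
        simp only [mem_iUnion]
        exact ⟨j, ⟨y, h3 _ _ (subset_closure hy), hyG⟩, m, ⟨y, hy⟩, rfl⟩
      · rw [hO'n ε _ h] at hy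
        exact hy.elim
    exact (hGfin.biUnion fun j _ => (h9 j).image _).subset hsub
  · intro ε p
    by_cases h : ∀ k, (p.2 k : ZMod 2) = ε k
    · rw [hO'g ε p h]; exact h4 _ _
    · rw [hO'n ε p h, frontier_empty]; exact isPreconnected_empty
  · intro ε p
    by_cases h : ∀ k, (p.2 k : ZMod 2) = ε k
    · rw [hO'g ε p h]; exact h5 _ _
    · rw [hO'n ε p h]; exact Or.inl (empty_subset _)
  · intro ε p
    by_cases h : ∀ k, (p.2 k : ZMod 2) = ε k
    · rw [hD'g ε p h]; exact (h6 _ _).isClosed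
    · rw [hD'n ε p h]; exact isClosed_empty
  · intro ε p
    by_cases h : ∀ k, (p.2 k : ZMod 2) = ε k
    · rw [hD'g ε p h, hO'g ε p h]; exact h7 _ _
    · rw [hD'n ε p h]; exact empty_subset _
  · intro x hx
    obtain ⟨j, hj⟩ := mem_iUnion.mp hx
    obtain ⟨m, hm⟩ := mem_iUnion.mp (h8 j hj)
    refine mem_iUnion.mpr ⟨fun k => (m k : ZMod 2), mem_iUnion.mpr ⟨(j, m), ?_⟩⟩
    rw [hD'g _ _ fun k => rfl]
    exact hm

/-- A countable locally finite cover by open sets with compact closure inside charts. -/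
lemma exists_chart_cover [T2Space M] [LocallyCompactSpace M] [SigmaCompactSpace M]
    (src : M → Set M) (hsrc : ∀ x, IsOpen (src x)) (hx : ∀ x, x ∈ src x) :
    ∃ (α : Type) (c : α → M) (U : α → Set M), Countable α ∧ (∀ a, IsOpen (U a)) ∧
      (∀ a, IsCompact (closure (U a))) ∧ (∀ a, closure (U a) ⊆ src (c a)) ∧
      ⋃ a, U a = univ ∧ LocallyFinite U := by
  have hB : ∀ x : M, (𝓝 x).HasBasis
      (fun U : Set M => (x ∈ U ∧ IsOpen U) ∧ IsCompact (closure U) ∧ closure U ⊆ src x) id := by
    intro x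
    refine ⟨fun t => ⟨fun ht => ?_, ?_⟩⟩
    · have h1 : interior t ∩ src x ∈ 𝓝 x :=
        inter_mem (interior_mem_nhds.mpr ht) ((hsrc x).mem_nhds (hx x))
      obtain ⟨K, hK, hKt, hKc⟩ := local_compact_nhds h1
      have hcl : closure (interior K) ⊆ K := closure_minimal interior_subset hKc.isClosed
      exact ⟨interior K, ⟨⟨mem_interior_iff_mem_nhds.mpr hK, isOpen_interior⟩,
        hKc.of_isClosed_subset isClosed_closure hcl, hcl.trans (hKt.trans inter_subset_right)⟩,
        interior_subset.trans (hKt.trans (inter_subset_left.trans interior_subset))⟩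
    · rintro ⟨U, ⟨⟨hxU, hU⟩, -⟩, hUt⟩
      exact mem_of_superset (hU.mem_nhds hxU) hUt
  obtain ⟨α, c, U, hp, hcov, hfin⟩ := refinement_of_locallyCompact_sigmaCompact_of_nhds_basis hB
  have hne : ∀ a, (U a).Nonempty := fun a => ⟨c a, (hp a).1.1⟩
  have hcount : Countable α := by
    have := hfin.countable_univ hne
    exact countable_univ_iff.mp this
  -- transfer to `Type`
  obtain ⟨ι, hι⟩ := hcount
  let e : range ι ≃ α := (Equiv.ofInjective ι hι).symm
  refine ⟨range ι, c ∘ e, U ∘ e, inferInstance, fun a => (hp _).1.2, fun a => (hp _).2.1,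
    fun a => (hp _).2.2, ?_, hfin.comp_injective e.injective⟩
  rw [← hcov]
  exact e.surjective.iUnion_comp U

/-- **Main theorem**: if the remainder of an `n`-manifold, `n > 1`, is connected, then it is
aposyndetic. -/
theorem aposyndetic {n : ℕ} (hn : 1 < n) [T2Space M] [LocallyCompactSpace M]
    [SigmaCompactSpace M] [NormalSpace M]
    (φ : M → OpenPartialHomeomorph M (Fin n → ℝ)) (hφ : ∀ x, x ∈ (φ x).source)
    (hR : IsPreconnected (remainder M)) {x y : StoneCech M} (hx : x ∈ remainder M)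
    (hxy : x ≠ y) :
    ∃ K ⊆ remainder M, IsCompact K ∧ IsConnected K ∧ y ∉ K ∧
      ∃ U : Set (StoneCech M), IsOpen U ∧ x ∈ U ∧ U ∩ remainder M ⊆ K := by
  classical
  -- a function separating `x` and `y`
  obtain ⟨f, hf0, hf1, hf⟩ := exists_continuous_zero_one_of_isClosed
    (isClosed_singleton (x := x)) (isClosed_singleton (x := y)) (by simpa using hxy)
  have hfx : f x = 0 := hf0 rfl
  have hfy : f y = 1 := hf1 rfl
  have hg : Continuous fun z : M => f (stoneCechUnit z) := f.continuous.comp continuous_stoneCechUnit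
  set U₀ : Set M := {z | f (stoneCechUnit z) < 2/3} with hU₀def
  set U₁ : Set M := {z | 1/3 < f (stoneCechUnit z)} with hU₁def
  have hU₀ : IsOpen U₀ := isOpen_lt hg continuous_const
  have hU₁ : IsOpen U₁ := isOpen_lt continuous_const hg
  have hU : U₀ ∪ U₁ = univ := by
    refine eq_univ_of_forall fun z => ?_
    by_cases h : f (stoneCechUnit z) < 2/3
    · exact Or.inl h
    · right
      rw [not_lt] at h
      have : (1/3 : ℝ) < f (stoneCechUnit z) := by linarith
      exact this
  -- the locally finite cover by charts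
  obtain ⟨α, c, U, hcount, hUo, hUc, hUs, hUcov, hUfin⟩ :=
    exists_chart_cover (fun x => (φ x).source) (fun x => (φ x).open_source) hφ
  obtain ⟨ι, hι⟩ := hcount
  -- the compact sets, indexed by natural numbers
  let A : ℕ → Set M := fun k => ⋃ a ∈ ι ⁻¹' {k}, closure (U a)
  have hAι : ∀ a, A (ι a) = closure (U a) := by
    intro a
    have : ι ⁻¹' {ι a} = {a} := by
      ext b
      simp only [mem_preimage, mem_singleton_iff]
      exact hι.eq_iff
    simp only [A, this, biUnion_singleton]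
  have hAemp : ∀ k, k ∉ range ι → A k = ∅ := by
    intro k hk
    have : ι ⁻¹' {k} = ∅ := by
      ext b
      simp only [mem_preimage, mem_singleton_iff, mem_empty_iff_false, iff_false]
      exact fun h => hk ⟨b, h⟩
    simp only [A, this, biUnion_empty]
  have hAclosed : ∀ k, IsClosed (A k) := by
    intro k
    by_cases hk : k ∈ range ι
    · obtain ⟨a, rfl⟩ := hk
      rw [hAι]; exact isClosed_closure
    · rw [hAemp k hk]; exact isClosed_empty
  have hAfin : LocallyFinite A := by
    intro z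
    obtain ⟨G, hG, hGfin⟩ := hUfin.closure z
    refine ⟨G, hG, (hGfin.image ι).subset ?_⟩
    rintro k ⟨w, hw, hwG⟩
    by_cases hk : k ∈ range ι
    · obtain ⟨a, rfl⟩ := hk
      rw [hAι] at hw
      exact ⟨a, ⟨w, hw, hwG⟩, rfl⟩
    · rw [hAemp k hk] at hw
      exact hw.elim
  have hAcov : ⋃ k, A k = univ := by
    refine eq_univ_of_forall fun z => ?_
    have hz : z ∈ ⋃ a, U a := by rw [hUcov]; trivial
    obtain ⟨a, ha⟩ := mem_iUnion.mp hz
    refine mem_iUnion.mpr ⟨ι a, ?_⟩
    rw [hAι]
    exact subset_closure ha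
  -- shrink the cover so that it has order at most `2 ^ n`
  obtain ⟨W, hWo, hWU, hWcov, hWord⟩ := exists_order_shrink (N := 2 ^ n) A hAclosed hAfin hAcov
    (by
      intro k U' hU' hU'c
      by_cases hk : k ∈ range ι
      · obtain ⟨a, rfl⟩ := hk
        refine single_chart_shrink (φ (c a)) (A := A (ι a)) ?_ ?_ U' hU' ?_
        · rw [hAι]; exact hUc a
        · rw [hAι]; exact hUs a
        · rw [hU'c]; exact subset_univ _
      · refine ⟨fun _ => ∅, fun _ => isOpen_empty, fun _ => empty_subset _, ?_, ?_⟩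
        · rw [hAemp k hk]; exact empty_subset _
        · intro z
          exact ⟨∅, by simp, fun s hs => hs.elim⟩)
    U hUo hUcov
  have hWfin : LocallyFinite W := hUfin.subset hWU
  obtain ⟨V, C, hVo, hCc, hCV, hVW, hVfin, hVdisj, hCcov⟩ :=
    exists_discrete_families (N := 2 ^ n) (by positivity) W hWo hWcov hWfin hWord
  -- `y` is in the closure of one of the discrete families
  obtain ⟨i, hi⟩ : ∃ i : ℕ, y ∈ closure (stoneCechUnit ''
      (⋃ T : {T : {T : Finset α // T.Nonempty} // T.1.card = i}, C T) : Set (StoneCech M)) := by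
    have hcov : (univ : Set M) ⊆ ⋃ i ∈ Finset.range (2 ^ n + 1),
        (⋃ T : {T : {T : Finset α // T.Nonempty} // T.1.card = i}, C T) := by
      intro z _
      obtain ⟨T, hT, hz⟩ := hCcov z
      rw [mem_iUnion₂]
      exact ⟨T.1.card, by rw [Finset.mem_range]; omega, mem_iUnion.mpr ⟨⟨T, rfl⟩, hz⟩⟩
    have h1 := closure_mono (image_mono hcov) (mem_closure_image_univ y)
    rw [image_iUnion₂, Finset.closure_biUnion] at h1
    rw [mem_iUnion₂] at h1
    obtain ⟨i, -, hi⟩ := h1
    exact ⟨i, hi⟩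
  -- refine to small cubes
  obtain ⟨O, D, hOo, hOc, hOdisj, hOfin, hOfr, hOU, hDc, hDO, hCD⟩ := family_cubes hn
    (J := {T : {T : Finset α // T.Nonempty} // T.1.card = i})
    (fun T => φ (c T.1.2.choose)) (fun T => V T.1) (fun T => C T.1) (fun T => hVo _)
    (fun T => (subset_closure.trans (hVW T.1 _ T.1.2.choose_spec)).trans
      ((hWU _).trans (subset_closure.trans (hUs _))))
    (fun T => by
      refine (hUc (T.1.2.choose)).of_isClosed_subset (hCc T.1) ?_
      exact (hCV T.1).trans ((subset_closure.trans (hVW T.1 _ T.1.2.choose_spec)).trans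
        ((hWU _).trans subset_closure)))
    (fun T => hCV T.1)
    (fun T T' hne => ((hVdisj T.1 T'.1 (fun h => hne (Subtype.ext h))
      (T.2.trans T'.2.symm)).mono subset_closure subset_closure))
    (hVfin.comp_injective Subtype.val_injective) hU₀ hU₁ hU
  obtain ⟨ε, hε⟩ : ∃ ε, y ∈ closure (stoneCechUnit '' (⋃ p, D ε p) : Set (StoneCech M)) := by
    have h1 := closure_mono (image_mono hCD) hi
    rw [image_iUnion, closure_iUnion_of_finite] at h1
    exact mem_iUnion.mp h1
  -- remove the cubes on which `f` is close to `1`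
  let J' := {p // ¬ (O ε p ⊆ U₀)}
  let O' : J' → Set M := fun p => O ε p
  set Wc : Set M := (⋃ j, O' j)ᶜ with hWc
  have hconn := isPreconnected_remainder_compl hR O' (fun j => hOo ε j) (fun j => hOc ε j)
    (fun p q hpq => hOdisj ε (fun h => hpq (Subtype.ext h)))
    ((hOfin ε).comp_injective Subtype.val_injective) (fun j => hOfr ε j)
  have hWcclosed : IsClosed Wc := (isOpen_iUnion fun j => hOo ε _).isClosed_compl
  have hUx : ∀ z ∈ ({z | f z < 1/3} : Set (StoneCech M)),
      z ∈ closure (stoneCechUnit '' Wc : Set (StoneCech M)) := by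
    intro z hz
    have hopen : IsOpen ({z | f z < 1/3} : Set (StoneCech M)) :=
      isOpen_lt f.continuous continuous_const
    refine closure_mono (image_mono ?_)
      (mem_closure_image_inter hopen hz (mem_closure_image_univ z))
    rintro w ⟨-, hw⟩ hwO
    obtain ⟨⟨p, hp⟩, hwp⟩ := mem_iUnion.mp hwO
    have h1 : O ε p ⊆ U₁ := (hOU ε p).resolve_left hp
    have h2 : 1/3 < f (stoneCechUnit w) := h1 hwp
    have h3 : f (stoneCechUnit w) < 1/3 := hw
    linarith
  refine ⟨closure (stoneCechUnit '' Wc : Set (StoneCech M)) ∩ remainder M, inter_subset_right,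
    (isClosed_closure.inter isClosed_remainder).isCompact, ⟨⟨x, ?_, hx⟩, hconn⟩, ?_,
    {z | f z < 1/3}, isOpen_lt f.continuous continuous_const, ?_, ?_⟩
  · apply hUx
    simp only [mem_ofPred_eq, hfx]
    norm_num
  · rintro ⟨hy1, -⟩
    -- `y` is in the closure of a closed set disjoint from `Wc`
    have hopen : IsOpen ({z | 2/3 < f z} : Set (StoneCech M)) :=
      isOpen_lt continuous_const f.continuous
    have hy2 : y ∈ closure (stoneCechUnit '' ((⋃ p, D ε p) ∩ {z | 2/3 ≤ f (stoneCechUnit z)}) :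
        Set (StoneCech M)) := by
      refine closure_mono (image_mono ?_) (mem_closure_image_inter hopen
        (by simp only [mem_ofPred_eq, hfy]; norm_num) hε)
      rintro w ⟨hw1, hw2⟩
      exact ⟨hw1, (show 2/3 < f (stoneCechUnit w) from hw2).le⟩
    have hclosed : IsClosed ((⋃ p, D ε p) ∩ {z | 2/3 ≤ f (stoneCechUnit z)}) := by
      refine IsClosed.inter ?_ (isClosed_le continuous_const hg)
      exact ((hOfin ε).subset (hDO ε)).isClosed_iUnion (hDc ε)
    have hdis : Disjoint ((⋃ p, D ε p) ∩ {z | 2/3 ≤ f (stoneCechUnit z)}) Wc := by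
      rw [Set.disjoint_left]
      rintro w ⟨hw1, hw2⟩ hwW
      obtain ⟨p, hp⟩ := mem_iUnion.mp hw1
      apply hwW
      have hp' : ¬ (O ε p ⊆ U₀) := by
        intro h
        have h1 : f (stoneCechUnit w) < 2/3 := h (hDO ε p hp)
        have h2 : 2/3 ≤ f (stoneCechUnit w) := hw2
        linarith
      exact mem_iUnion.mpr ⟨⟨p, hp'⟩, hDO ε p hp⟩
    exact Set.disjoint_left.mp (disjoint_closure_image hclosed hWcclosed hdis) hy2 hy1
  · simp only [mem_ofPred_eq, hfx]
    norm_num
  · rintro z ⟨hz1, hz2⟩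
    exact ⟨hUx z hz1, hz2⟩

end Pool.Agent.H83
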